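import Pool.Agent.H92.KST.TargetsX

/-!
# Row GOODG of the board kst_modules (helper21)
-/

set_option autoImplicit false
set_option linter.dupNamespace false

universe u

namespace Pool.Agent.H21.KST

open Pool.Agent.H62.MK Pool.Agent.H19.KN Pool.Agent.H92.KST

theorem pf_GOODG (hGENF : T_GENF.{u}) (hLOCX : T_LOCX.{u}) : T_GOODG.{u} := by
  intro F _ O π q E hS Oy hOy
  have hOle : ∀ y : Ideal O, y.IsPrime → ∀ x ∈ O, x ∈ Oy y := by
    intro y hy x hx
    rw [hOy y hy x]
    exact ⟨1, fun h => hy.ne_top ((Ideal.eq_top_iff_one y).2 h), by simpa using hx⟩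
  have hile : ∀ y : Ideal O, ∀ x ∈ Oy y, x ∈ icl (Oy y) F := by
    intro y x hx
    show IsIntegral (Oy y) x
    exact isIntegral_algebraMap (R := Oy y) (A := F) (x := ⟨x, hx⟩)
  have hG0 : ∀ y : Ideal O, y.IsPrime → (∃ h : π ∈ O, (⟨π, h⟩ : O) ∈ y) →
      Good0 (icl (Oy y) F) π q E := by
    intro y hy ⟨hπ, hπy⟩
    refine ⟨hile y _ (hOle y hy _ hπ), hS.pi_ne, ?_, ?_⟩
    · intro a ha
      obtain ⟨s, r, hs0, hs, hsr⟩ := (hLOCX F O π q E hS Oy hOy y hy a).1 ha
      obtain ⟨hfin, hne⟩ := (hGENF F O π q E hS).2.2.2.2 y hy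
      obtain ⟨p, hp⟩ : ∃ p : integralClosure O F, p = algebraMap O (integralClosure O F) ⟨π, hπ⟩ :=
        ⟨_, rfl⟩
      have hpF : algebraMap (integralClosure O F) F p = π := by
        rw [hp]
        rfl
      have hpQ : ∀ Q ∈ Over O y, p ∈ Q := by
        intro Q hQ
        rw [hp]
        have : (⟨π, hπ⟩ : O) ∈ Q.comap (algebraMap O (integralClosure O F)) := by
          rw [hQ.2]
          exact hπy
        exact this
      have hout : ∀ Q ∈ Over O y, s + p * r ∉ Q := by
        intro Q hQ h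
        refine hs Q hQ ?_
        have h2 : s + p * r - p * r ∈ Q := Q.sub_mem h (Q.mul_mem_right r (hpQ Q hQ))
        rwa [add_sub_cancel_right] at h2
      have hne0 : s + p * r ≠ 0 := by
        obtain ⟨Q, hQ⟩ := hne
        intro h
        apply hout Q hQ
        rw [h]
        exact Q.zero_mem
      have hinj : Function.Injective (algebraMap (integralClosure O F) F) :=
        Subtype.val_injective
      have hneF : algebraMap (integralClosure O F) F (s + p * r) ≠ 0 := by
        intro h
        apply hne0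
        apply hinj
        rw [h, map_zero]
      have hsF : algebraMap (integralClosure O F) F s ≠ 0 := by
        intro h
        apply hs0
        apply hinj
        rw [h, map_zero]
      refine ⟨algebraMap (integralClosure O F) F s /
        algebraMap (integralClosure O F) F (s + p * r), ?_, ?_⟩
      · rw [hLOCX F O π q E hS Oy hOy y hy]
        refine ⟨s + p * r, s, hne0, hout, ?_⟩
        field_simp
      · have h3 : algebraMap (integralClosure O F) F (s + p * r) =
            algebraMap (integralClosure O F) F s * (1 + π * a) := by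
          rw [map_add, map_mul, hpF, ← hsr]
          ring
        rw [h3] at hneF ⊢
        have h4 := right_ne_zero_of_mul hneF
        field_simp
    · obtain ⟨ε, hε, ε', hε', h1, h2⟩ := hS.qeq
      exact ⟨ε, hile y _ (hOle y hy _ hε), ε', hile y _ (hOle y hy _ hε'), h1, h2⟩
  refine ⟨hG0, ?_⟩
  intro y hy
  obtain ⟨hyp, ⟨hπ, hπy⟩, Q, hQ, hht⟩ := hy
  refine ⟨⟨hG0 y hyp ⟨hπ, hπy⟩, ?_⟩, ?_⟩
  · intro x
    obtain ⟨a, ha, b, hb, hb0, rfl⟩ := hS.fr x
    have hmin := (hGENF F O π q E hS).2.1 y ⟨hyp, ⟨hπ, hπy⟩, Q, hQ, hht⟩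
    obtain ⟨s, hs, k, c, hc⟩ : ∃ s : O, s ∉ y ∧ ∃ (k : ℕ) (c : O),
        s * (⟨π, hπ⟩ : O) ^ k = (⟨b, hb⟩ : O) * c := by
      by_contra hcon
      push Not at hcon
      have hdis : Disjoint ((Ideal.span {(⟨b, hb⟩ : O)} : Ideal O) : Set O)
          ((y.primeCompl ⊔ Submonoid.powers (⟨π, hπ⟩ : O) : Submonoid O) : Set O) := by
        rw [Set.disjoint_left]
        intro z hz hz2
        obtain ⟨s, hs, t, ht, rfl⟩ := Submonoid.mem_sup.1 hz2
        obtain ⟨k, rfl⟩ := ht
        obtain ⟨c, hc⟩ := Ideal.mem_span_singleton'.1 hz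
        exact hcon s hs k c (by rw [← hc, mul_comm])
      obtain ⟨z, hz, hbz, hzd⟩ := Ideal.exists_le_prime_disjoint _ _ hdis
      rw [Set.disjoint_left] at hzd
      have hzy : z ≤ y := by
        intro t ht
        by_contra h
        exact hzd ht (Submonoid.mem_sup_left (S := y.primeCompl) h)
      have hz0 : z ≠ ⊥ := by
        intro h
        have h1 : (⟨b, hb⟩ : O) ∈ z := hbz (Ideal.mem_span_singleton_self _)
        rw [h, Ideal.mem_bot] at h1
        exact hb0 (congrArg Subtype.val h1)
      have hzy' := hmin z hz hz0 hzy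
      refine hzd (a := (⟨π, hπ⟩ : O)) ?_ (Submonoid.mem_sup_right (Submonoid.mem_powers _))
      rw [hzy']
      exact hπy
    refine ⟨k, hile y _ ?_⟩
    rw [hOy y hyp]
    refine ⟨s, hs, ?_⟩
    have h1 : (s : F) * π ^ k = b * c := congrArg Subtype.val hc
    have h2 : (s : F) * (π ^ k * (a / b)) = c * a := by
      field_simp
      linear_combination a * h1
    rw [h2]
    exact O.mul_mem c.2 ha
  · intro x hx
    show IsIntegral (Oy y) x
    exact isIntegral_trans (R := Oy y) (A := integralClosure (Oy y) F) x hx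

end Pool.Agent.H21.KST
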